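import Mathlib

namespace Pool.Agent.Results.MP_26bcd4_gt.Cone

open Set Metric
open scoped RealInnerProductSpace

abbrev E (d : ℕ) := EuclideanSpace ℝ (Fin d)

def OuterIllum {d : ℕ} (K U : Set (E d)) : Prop :=
  (∀ u ∈ U, ‖u‖ = 1) ∧ ∀ x ∈ frontier K, ∃ u ∈ U, ∃ ε : ℝ, 0 < ε ∧ ε < 1 ∧ x + ε • u ∈ interior K

def Primitive {d : ℕ} (K U : Set (E d)) : Prop :=
  OuterIllum K U ∧ ∀ W : Set (E d), W ⊆ U → W ≠ U → ¬OuterIllum K W

def cone {d : ℕ} (t : E d) : Set (E d) := {x | 0 ≤ ⟪t, x⟫ ∧ ‖x - ⟪t, x⟫ • t‖ ≤ 1 - ⟪t, x⟫}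

variable {d : ℕ} {t : E d}

lemma cone_closed (t : E d) : IsClosed (cone t) := by
  simp only [cone, ofPred_and]
  exact (isClosed_le continuous_const (by fun_prop)).inter (isClosed_le (by fun_prop) (by fun_prop))

lemma cone_compact (ht : ‖t‖ = 1) : IsCompact (cone t) := by
  refine isCompact_of_isClosed_isBounded (cone_closed t)
    ((isBounded_closedBall (x := (0 : E d)) (r := 1)).subset ?_)
  rintro x ⟨h1, h2⟩
  rw [mem_closedBall_zero_iff]
  have := norm_add_le (x - ⟪t, x⟫ • t) (⟪t, x⟫ • t)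
  rw [sub_add_cancel, norm_smul, ht, Real.norm_eq_abs, abs_of_nonneg h1] at this
  linarith

lemma cone_convex (t : E d) : Convex ℝ (cone t) := by
  rintro x ⟨hx1, hx2⟩ y ⟨hy1, hy2⟩ a b ha hb hab
  have e : ⟪t, a • x + b • y⟫ = a * ⟪t, x⟫ + b * ⟪t, y⟫ := by
    rw [inner_add_right, inner_smul_right, inner_smul_right]
  refine ⟨by rw [e]; positivity, ?_⟩
  rw [e, show a • x + b • y - (a * ⟪t, x⟫ + b * ⟪t, y⟫) • t =
    a • (x - ⟪t, x⟫ • t) + b • (y - ⟪t, y⟫ • t) by module]
  refine (norm_add_le _ _).trans ?_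
  rw [norm_smul, norm_smul, Real.norm_eq_abs, Real.norm_eq_abs, abs_of_nonneg ha, abs_of_nonneg hb]
  nlinarith [mul_le_mul_of_nonneg_left hx2 ha, mul_le_mul_of_nonneg_left hy2 hb]

lemma shift (ht : ‖t‖ = 1) (x : E d) (s : ℝ) : ⟪t, x + s • t⟫ = ⟪t, x⟫ + s ∧
    x + s • t - ⟪t, x + s • t⟫ • t = x - ⟪t, x⟫ • t := by
  have : ⟪t, x + s • t⟫ = ⟪t, x⟫ + s := by
    rw [inner_add_right, inner_smul_right, real_inner_self_eq_norm_sq, ht]; ring
  exact ⟨this, by rw [this]; module⟩

lemma mem_int (ht : ‖t‖ = 1) (x : E d) :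
    x ∈ interior (cone t) ↔ 0 < ⟪t, x⟫ ∧ ‖x - ⟪t, x⟫ • t‖ < 1 - ⟪t, x⟫ := by
  constructor
  · intro hx
    have hc : ContinuousAt (fun s : ℝ => x + s • t) 0 := by fun_prop
    have e1 : ∀ᶠ s in nhds (0 : ℝ), x + s • t ∈ cone t := by
      apply hc.eventually_mem
      simpa using mem_interior_iff_mem_nhds.1 hx
    obtain ⟨δ, hδ, h⟩ := Metric.eventually_nhds_iff.1 e1
    have h1 := (h (y := -(δ / 2)) (by simp [abs_of_pos hδ]; linarith)).1
    have h2 := (h (y := δ / 2) (by simp [abs_of_pos hδ]; linarith)).2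
    rw [(shift ht x _).1] at h1
    rw [(shift ht x _).2, (shift ht x _).1] at h2
    constructor <;> linarith
  · intro hx
    refine interior_maximal (t := {x | 0 < ⟪t, x⟫ ∧ ‖x - ⟪t, x⟫ • t‖ < 1 - ⟪t, x⟫})
      (fun y hy => And.intro hy.1.le hy.2.le) ?_ hx
    simp only [ofPred_and]
    exact (isOpen_lt continuous_const (by fun_prop)).inter (isOpen_lt (by fun_prop) (by fun_prop))

noncomputable def dir (t : E d) (h : ℝ) (e : E d) : E d := (√(1 + h ^ 2))⁻¹ • (h • t - e)

lemma dir_norm (ht : ‖t‖ = 1) (h : ℝ) {e : E d} (he : ‖e‖ = 1) (hte : ⟪t, e⟫ = 0) :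
    ‖dir t h e‖ = 1 := by
  have hp : 0 < √(1 + h ^ 2) := Real.sqrt_pos.2 (by positivity)
  have : ‖h • t - e‖ = √(1 + h ^ 2) := by
    rw [← Real.sqrt_sq (norm_nonneg (h • t - e)), norm_sub_sq_real, norm_smul, inner_smul_left, ht,
      he, hte]
    simp [add_comm]
  rw [dir, norm_smul, this, norm_inv, Real.norm_eq_abs, abs_of_pos hp, inv_mul_cancel₀ hp.ne']

lemma base_iff (ht : ‖t‖ = 1) {h : ℝ} {e y : E d} (he : ‖e‖ = 1) (hte : ⟪t, e⟫ = 0)
    (hty : ⟪t, y⟫ = 0) (s : ℝ) : y + s • (h • t - e) ∈ interior (cone t) ↔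
      0 < s * h ∧ s * h < 1 ∧ ‖y‖ ^ 2 - 2 * s * ⟪y, e⟫ + s ^ 2 < (1 - s * h) ^ 2 := by
  have e0 : y + s • (h • t - e) = (y - s • e) + (s * h) • t := by module
  have e1 : ⟪t, y - s • e⟫ = 0 := by rw [inner_sub_right, inner_smul_right, hty, hte]; ring
  have e2 : ‖y - s • e‖ ^ 2 = ‖y‖ ^ 2 - 2 * s * ⟪y, e⟫ + s ^ 2 := by
    rw [norm_sub_sq_real, norm_smul, inner_smul_right, he]
    simp
    ring
  rw [mem_int ht, e0, (shift ht _ _).2, (shift ht _ _).1, e1, zero_add, zero_smul, sub_zero, ← e2]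
  refine and_congr_right fun h0 => ⟨fun h1 => ⟨by linarith [norm_nonneg (y - s • e)],
    pow_lt_pow_left₀ h1 (norm_nonneg _) two_ne_zero⟩, fun h1 =>
    lt_of_pow_lt_pow_left₀ 2 (by linarith [h1.1]) h1.2⟩

theorem result (d : ℕ) (hd : 3 ≤ d) : ∃ K : Set (E d), IsCompact K ∧ Convex ℝ K ∧
    (interior K).Nonempty ∧ ∀ N : ℕ, ∃ U : Set (E d), Primitive K U ∧ (N : ℕ∞) ≤ U.encard := by
  classical
  let t : E d := EuclideanSpace.single ⟨0, by omega⟩ 1
  let a : E d := EuclideanSpace.single ⟨1, by omega⟩ 1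
  let b : E d := EuclideanSpace.single ⟨2, by omega⟩ 1
  have ht : ‖t‖ = 1 := by simp [t]
  have ha : ‖a‖ = 1 := by simp [a]
  have hb : ‖b‖ = 1 := by simp [b]
  have hta : ⟪t, a⟫ = 0 := by simp [t, a, EuclideanSpace.inner_single_left]
  have htb : ⟪t, b⟫ = 0 := by simp [t, b, EuclideanSpace.inner_single_left]
  have hab : ⟪b, a⟫ = 0 := by simp [a, b, EuclideanSpace.inner_single_left]
  have hfr : ∀ x, x ∈ frontier (cone t) ↔ x ∈ cone t ∧ x ∉ interior (cone t) := fun x => by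
    rw [(cone_closed t).frontier_eq]; rfl
  refine ⟨cone t, cone_compact ht, cone_convex t, ⟨0 + (1 / 2 : ℝ) • t, ?_⟩, fun N => ?_⟩
  · rw [mem_int ht, (shift ht _ _).2, (shift ht _ _).1]
    norm_num
  set M : ℝ := N + 1 with hM
  have hM1 : 1 ≤ M := by rw [hM]; linarith [(Nat.cast_nonneg N : (0 : ℝ) ≤ N)]
  set h : ℝ := 1 - 1 / (8 * M ^ 2) with hh
  have hq : 0 < 1 / (8 * M ^ 2) := by positivity
  have hq' : 1 / (8 * M ^ 2) ≤ 1 / 8 := by
    rw [div_le_div_iff₀ (by positivity) (by positivity)]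
    nlinarith
  have h1 : h < 1 := by linarith
  have h0 : 0 < h := by linarith
  have hp : 1 ≤ √(1 + h ^ 2) := Real.one_le_sqrt.2 (by nlinarith)
  have hp2 : √(1 + h ^ 2) < 2 := (Real.sqrt_lt' (by norm_num)).2 (by nlinarith)
  let S : Set (E d) := {e | ‖e‖ = 1 ∧ ⟪t, e⟫ = 0}
  let F : Set (E d) := insert (-t) (dir t h '' S)
  have hS : IsCompact S := by
    refine isCompact_of_isClosed_isBounded ?_
      ((isBounded_closedBall (x := (0 : E d)) (r := 1)).subset fun e he => by simpa using he.1.le)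
    simp only [S, ofPred_and]
    exact (isClosed_eq (by fun_prop) continuous_const).inter
      (isClosed_eq (by fun_prop) continuous_const)
  obtain ⟨T, hT1, hT2⟩ := hS.elim_nhds_subcover (fun e => {e' | h < ⟪e', e⟫}) (fun e he =>
    (isOpen_lt continuous_const (by fun_prop)).mem_nhds (by
      simp only [mem_ofPred_eq, real_inner_self_eq_norm_sq, he.1]; linarith))
  have hex : ∃ U : Finset (E d), (U : Set (E d)) ⊆ F ∧ OuterIllum (cone t) U := by
    have hsub : ((insert (-t) (T.image (dir t h)) : Finset (E d)) : Set (E d)) ⊆ F := by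
      push_cast
      exact insert_subset_insert (image_mono fun e he => hT1 e he)
    refine ⟨insert (-t) (T.image (dir t h)), hsub, fun u hu => ?_, fun x hx => ?_⟩
    · rcases hsub hu with rfl | ⟨e, he, rfl⟩
      · rw [norm_neg, ht]
      · exact dir_norm ht h he.1 he.2
    · obtain ⟨⟨x1, x2⟩, -⟩ := (hfr x).1 hx
      rcases x1.eq_or_lt with hz | hz
      · rw [← hz, zero_smul, sub_zero, sub_zero] at x2
        obtain ⟨e', he', hxe⟩ : ∃ e' ∈ S, x = ‖x‖ • e' := by
          rcases eq_or_ne x 0 with rfl | hx0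
          · exact ⟨a, ⟨ha, hta⟩, by simp⟩
          · have := norm_pos_iff.2 hx0
            refine ⟨‖x‖⁻¹ • x, ⟨norm_smul_inv_norm hx0, by rw [inner_smul_right, ← hz, mul_zero]⟩, ?_⟩
            rw [smul_smul, mul_inv_cancel₀ this.ne', one_smul]
        obtain ⟨e, heT, hc⟩ := mem_iUnion₂.1 (hT2 he')
        have hc : h < ⟪e', e⟫ := hc
        have he := hT1 e heT
        have hc1 : ⟪e', e⟫ ≤ 1 := by simpa [he'.1, he.1] using real_inner_le_norm e' e
        have hxe' : ⟪x, e⟫ = ‖x‖ * ⟪e', e⟫ := by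
          conv_lhs => rw [hxe, inner_smul_left]
          simp
        set c := ⟪e', e⟫
        refine ⟨dir t h e, by simpa using Or.inr ⟨e, heT, rfl⟩, (c - h) * √(1 + h ^ 2),
          mul_pos (by linarith) (by linarith), by nlinarith, ?_⟩
        rw [dir, smul_smul, mul_assoc, mul_inv_cancel₀ (by linarith), mul_one,
          base_iff ht he.1 he.2 hz.symm, hxe']
        have r0 := norm_nonneg x
        have s0 : 0 < c - h := by linarith
        have s1 : c - h ≤ 1 / 8 := by linarith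
        refine ⟨by positivity, by nlinarith, ?_⟩
        generalize ‖x‖ = r at *
        have k1 : 0 ≤ (1 - r) * (1 + r - 2 * (c - h) * c) := mul_nonneg (by linarith) (by nlinarith)
        nlinarith [mul_pos s0 s0, sq_nonneg ((c - h) * h)]
      · refine ⟨-t, by simp, ⟪t, x⟫ / 2, by linarith, by linarith [norm_nonneg (x - ⟪t, x⟫ • t)], ?_⟩
        rw [smul_neg, ← neg_smul, mem_int ht, (shift ht _ _).2, (shift ht _ _).1]
        constructor <;> linarith
  obtain ⟨U, ⟨hU1, hU2⟩, hmin⟩ := (wellFounded_lt (α := Finset (E d))).has_min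
    {U | (U : Set (E d)) ⊆ F ∧ OuterIllum (cone t) U} hex
  refine ⟨U, ⟨hU2, fun W hW hne hill => ?_⟩, ?_⟩
  · obtain ⟨W', rfl⟩ := (U.finite_toSet.subset hW).exists_finset_coe
    exact hmin W' ⟨hW.trans hU1, hill⟩
      (lt_of_le_of_ne (Finset.coe_subset.1 hW) fun e => hne (by rw [e]))
  · let p : Fin N → E d := fun k => √(1 - ((k : ℝ) / M) ^ 2) • a + ((k : ℝ) / M) • b
    have hk : ∀ k : Fin N, ((k : ℝ) / M) ^ 2 ≤ 1 := fun k => by
      have : (k : ℝ) ≤ N := by exact_mod_cast k.2.le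
      exact pow_le_one₀ (by positivity) ((div_le_one (by linarith)).2 (by linarith))
    have hpn : ∀ k, ‖p k‖ = 1 := fun k => by
      rw [← sq_eq_sq₀ (norm_nonneg _) zero_le_one, norm_add_sq_real, norm_smul, norm_smul,
        inner_smul_left, inner_smul_right, real_inner_comm, hab, ha, hb]
      simp only [Real.norm_eq_abs, mul_one, sq_abs, mul_zero, add_zero]
      rw [Real.sq_sqrt (by linarith [hk k])]
      ring
    have hpt : ∀ k, ⟪t, p k⟫ = 0 := fun k => by
      simp only [p, inner_add_right, inner_smul_right, hta, htb, mul_zero, add_zero]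
    have hpb : ∀ k, ⟪b, p k⟫ = k / M := fun k => by
      simp only [p, inner_add_right, inner_smul_right, hab, real_inner_self_eq_norm_sq, hb]
      ring
    have key : ∀ k, ∃ e ∈ S, dir t h e ∈ U ∧ h < ⟪p k, e⟫ := by
      intro k
      obtain ⟨u, hu, ε, e0, -, hi⟩ := hU2.2 (p k) ((hfr _).2 ⟨⟨(hpt k).ge, by simp [hpt, hpn]⟩,
        fun hi => ((mem_int ht _).1 hi).1.ne' (hpt k)⟩)
      rcases hU1 hu with rfl | ⟨e, he, rfl⟩
      · rw [smul_neg, ← neg_smul, mem_int ht, (shift ht _ _).1, hpt] at hi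
        linarith [hi.1]
      · refine ⟨e, he, hu, ?_⟩
        rw [dir, smul_smul, base_iff ht he.1 he.2 (hpt k), hpn] at hi
        have s0 : 0 < ε * (√(1 + h ^ 2))⁻¹ := by positivity
        generalize ε * (√(1 + h ^ 2))⁻¹ = s at hi s0
        by_contra hc
        push Not at hc
        nlinarith [hi.2.2, mul_le_mul_of_nonneg_left hc s0.le, mul_pos s0 s0,
          mul_nonneg (mul_pos s0 s0).le (show 0 ≤ 1 - h ^ 2 by nlinarith)]
    choose e heS heU hel using key
    have hinj : Function.Injective fun k => dir t h (e k) := by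
      intro k l hkl
      have h2 : e k = e l := by
        have := smul_right_injective (E d) (show (√(1 + h ^ 2))⁻¹ ≠ 0 by positivity) hkl
        simpa using this
      have n1 : ∀ j, ‖p j - e j‖ ^ 2 < (1 / (2 * M)) ^ 2 := fun j => by
        rw [norm_sub_sq_real, hpn, (heS j).1, show (1 / (2 * M)) ^ 2 = 2 * (1 / (8 * M ^ 2)) by
          field_simp; norm_num]
        linarith [hel j]
      have n2 : ∀ j, ‖p j - e j‖ < 1 / (2 * M) := fun j =>
        lt_of_pow_lt_pow_left₀ 2 (by positivity) (n1 j)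
      have n3 : ‖p k - p l‖ < 1 / M := by
        have := norm_sub_le (p k - e k) (p l - e l)
        rw [h2, sub_sub_sub_cancel_right] at this
        have e1 := n2 k
        rw [h2] at e1
        have : 1 / (2 * M) + 1 / (2 * M) = 1 / M := by field_simp; norm_num
        linarith [n2 l]
      have n4 := abs_real_inner_le_norm b (p k - p l)
      rw [inner_sub_right, hpb, hpb, hb, one_mul, ← sub_div, abs_div,
        abs_of_pos (show 0 < M by linarith)] at n4
      have n5 : |(k : ℝ) - l| < 1 := (div_lt_div_iff_of_pos_right (by linarith)).1 (n4.trans_lt n3)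
      rw [abs_lt] at n5
      have n6 : (k : ℕ) < l + 1 := by exact_mod_cast (show (k : ℝ) < l + 1 by linarith)
      have n7 : (l : ℕ) < k + 1 := by exact_mod_cast (show (l : ℝ) < k + 1 by linarith)
      exact Fin.ext (by omega)
    have := Finset.card_le_card_of_injOn (s := Finset.univ) (t := U) (fun k => dir t h (e k))
      (fun k _ => heU k) hinj.injOn
    rw [encard_coe_eq_coe_finsetCard]
    simpa using this

end Pool.Agent.Results.MP_26bcd4_gt.Cone
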